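import Pool.Agent.N556.CQ.Stm
import Pool.Agent.Helper484.Crit.FG

/-!
# Project CQ (helper556), leaf BDD (helper75): convex sets of finite positive area are bounded
-/

set_option autoImplicit false

namespace Pool.Agent.N75.CQ.BDD

open MeasureTheory Set Pool.Agent.N556.CQ

theorem tri {K : Set P} (hK : Convex ℝ K) {a b c : P} (ha : a ∈ K) (hb : b ∈ K) (hc : c ∈ K)
    (hfin : volume K < ⊤) :
    |(b - a).1 * (c - a).2 - (b - a).2 * (c - a).1| / 2 ≤ (volume K).toReal := by
  have h1 : convexHull ℝ {a, b, c} ⊆ K := by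
    refine convexHull_min ?_ hK
    intro x hx
    rcases hx with rfl | rfl | rfl
    · exact ha
    · exact hb
    · exact hc
  have h2 := measure_mono (μ := volume) h1
  rw [Pool.Agent.Helper484.Crit.FG.volume_triangle] at h2
  have h3 := (ENNReal.ofReal_le_iff_le_toReal hfin.ne).1 h2
  exact h3

theorem bdd : S_BDD := by
  intro K hK hpos hfin
  have hint : (interior K).Nonempty := by
    by_contra hcon
    rw [not_nonempty_iff_eq_empty] at hcon
    have h1 : volume (frontier K) = 0 := hK.addHaar_frontier volume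
    have h2 : K ⊆ frontier K := by
      rw [frontier, hcon, sdiff_empty]
      exact subset_closure
    have h3 := measure_mono_null h2 h1
    rw [h3] at hpos
    exact lt_irrefl _ hpos
  obtain ⟨p, hp⟩ := hint
  rw [mem_interior_iff_mem_nhds, Metric.mem_nhds_iff] at hp
  obtain ⟨r₀, hr₀, hball⟩ := hp
  obtain ⟨r, hr⟩ : ∃ r : ℝ, r = r₀ / 2 := ⟨_, rfl⟩
  have hr0 : 0 < r := by
    rw [hr]
    positivity
  have hmem : ∀ d : P, |d.1| ≤ r → |d.2| ≤ r → p + d ∈ K := by
    intro d h1 h2
    apply hball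
    rw [Metric.mem_ball, dist_eq_norm, add_sub_cancel_left, Prod.norm_def, Real.norm_eq_abs,
      Real.norm_eq_abs, max_lt_iff]
    constructor <;> linarith
  obtain ⟨V, hV⟩ : ∃ V : ℝ, V = (volume K).toReal := ⟨_, rfl⟩
  refine (Metric.isBounded_closedBall (x := p) (r := V / r)).subset ?_
  intro x hx
  rw [Metric.mem_closedBall, dist_eq_norm, Prod.norm_def, Real.norm_eq_abs, Real.norm_eq_abs,
    max_le_iff]
  have habs : |r| = r := abs_of_pos hr0
  constructor
  · have h1 := tri hK (hmem ((0, -r) : P) (by simpa using hr0.le) (by simp [habs]))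
      (hmem ((0, r) : P) (by simpa using hr0.le) (by simp [habs])) hx hfin
    rw [← hV] at h1
    rw [le_div_iff₀ hr0]
    have h2 : ((p + ((0, r) : P)) - (p + ((0, -r) : P))).1 * (x - (p + ((0, -r) : P))).2 -
        ((p + ((0, r) : P)) - (p + ((0, -r) : P))).2 * (x - (p + ((0, -r) : P))).1 =
        -(2 * r * (x - p).1) := by
      simp only [Prod.fst_sub, Prod.fst_add, Prod.snd_sub, Prod.snd_add]
      ring
    rw [h2, abs_neg, abs_mul, abs_mul, habs, abs_of_pos (show (0 : ℝ) < 2 by norm_num)] at h1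
    linarith
  · have h1 := tri hK (hmem ((-r, 0) : P) (by simp [habs]) (by simpa using hr0.le))
      (hmem ((r, 0) : P) (by simp [habs]) (by simpa using hr0.le)) hx hfin
    rw [← hV] at h1
    rw [le_div_iff₀ hr0]
    have h2 : ((p + ((r, 0) : P)) - (p + ((-r, 0) : P))).1 * (x - (p + ((-r, 0) : P))).2 -
        ((p + ((r, 0) : P)) - (p + ((-r, 0) : P))).2 * (x - (p + ((-r, 0) : P))).1 =
        (2 * r * (x - p).2) := by
      simp only [Prod.fst_sub, Prod.fst_add, Prod.snd_sub, Prod.snd_add]
      ring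
    rw [h2, abs_mul, abs_mul, habs, abs_of_pos (show (0 : ℝ) < 2 by norm_num)] at h1
    linarith

end Pool.Agent.N75.CQ.BDD
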