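import Pool.Agent.N669.CQ.Stm

/-!
# Project CQ (helper669), part OCT (helper75): bodies in normal form are octagons
-/

set_option autoImplicit false

namespace Pool.Agent.N75.CQ.OCT

open MeasureTheory Set Pool.Agent.N669.CQ

theorem t_OCT (hARE : S_ARE) (hSTR : S_STR) : S_OCT := by
  intro K hK
  have hne : K.Nonempty := ⟨_, hK.c00⟩
  obtain ⟨p1, hp1, hm1⟩ := hK.bd.comp.exists_isMinOn hne continuous_snd.continuousOn
  obtain ⟨p2, hp2, hm2⟩ := hK.bd.comp.exists_isMaxOn hne continuous_fst.continuousOn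
  obtain ⟨p3, hp3, hm3⟩ := hK.bd.comp.exists_isMaxOn hne continuous_snd.continuousOn
  obtain ⟨p4, hp4, hm4⟩ := hK.bd.comp.exists_isMinOn hne continuous_fst.continuousOn
  have hl1 : ∀ k ∈ K, p1.2 ≤ k.2 := fun k hk => hm1 hk
  have hl2 : ∀ k ∈ K, k.1 ≤ p2.1 := fun k hk => hm2 hk
  have hl3 : ∀ k ∈ K, k.2 ≤ p3.2 := fun k hk => hm3 hk
  have hl4 : ∀ k ∈ K, p4.1 ≤ k.1 := fun k hk => hm4 hk
  have q1 : p1.2 ≤ 0 := hl1 _ hK.c00
  have q2 : 1 ≤ p2.1 := hl2 _ hK.c10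
  have q3 : 1 ≤ p3.2 := hl3 _ hK.c11
  have q4 : p4.1 ≤ 0 := hl4 _ hK.c00
  obtain ⟨h1, eh1⟩ : ∃ h : ℝ, h = -p1.2 := ⟨_, rfl⟩
  obtain ⟨h2, eh2⟩ : ∃ h : ℝ, h = p2.1 - 1 := ⟨_, rfl⟩
  obtain ⟨h3, eh3⟩ : ∃ h : ℝ, h = p3.2 - 1 := ⟨_, rfl⟩
  obtain ⟨h4, eh4⟩ : ∃ h : ℝ, h = -p4.1 := ⟨_, rfl⟩
  obtain ⟨x1, hx1, hx1K⟩ : ∃ x1 : ℝ, (0 ≤ x1 ∧ x1 ≤ 1) ∧ ((x1, -h1) : P) ∈ K := by
    by_cases hc : 0 ≤ p1.1 ∧ p1.1 ≤ 1
    · refine ⟨p1.1, hc, ?_⟩
      rw [eh1, neg_neg]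
      exact hp1
    · have h5 : p1.1 < 0 ∨ 1 < p1.1 := by
        by_contra hcon
        push Not at hcon
        exact hc hcon
      have h6 := (hK.out p1 hp1 h5).1
      refine ⟨0, ⟨le_rfl, zero_le_one⟩, ?_⟩
      have h7 : -h1 = 0 := by linarith
      rw [h7]
      exact hK.c00
  obtain ⟨x3, hx3, hx3K⟩ : ∃ x3 : ℝ, (0 ≤ x3 ∧ x3 ≤ 1) ∧ ((x3, 1 + h3) : P) ∈ K := by
    by_cases hc : 0 ≤ p3.1 ∧ p3.1 ≤ 1
    · refine ⟨p3.1, hc, ?_⟩
      rw [eh3, add_sub_cancel]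
      exact hp3
    · have h5 : p3.1 < 0 ∨ 1 < p3.1 := by
        by_contra hcon
        push Not at hcon
        exact hc hcon
      have h6 := (hK.out p3 hp3 h5).2
      refine ⟨0, ⟨le_rfl, zero_le_one⟩, ?_⟩
      have h7 : 1 + h3 = 1 := by linarith
      rw [h7]
      exact hK.c01
  obtain ⟨y2, hy2, hy2K⟩ : ∃ y2 : ℝ, (0 ≤ y2 ∧ y2 ≤ 1) ∧ ((1 + h2, y2) : P) ∈ K := by
    by_cases hc : 1 < p2.1
    · refine ⟨p2.2, hK.out p2 hp2 (Or.inr hc), ?_⟩
      rw [eh2, add_sub_cancel]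
      exact hp2
    · refine ⟨0, ⟨le_rfl, zero_le_one⟩, ?_⟩
      have h7 : 1 + h2 = 1 := by
        push Not at hc
        linarith
      rw [h7]
      exact hK.c10
  obtain ⟨y4, hy4, hy4K⟩ : ∃ y4 : ℝ, (0 ≤ y4 ∧ y4 ≤ 1) ∧ ((-h4, y4) : P) ∈ K := by
    by_cases hc : p4.1 < 0
    · refine ⟨p4.2, hK.out p4 hp4 (Or.inl hc), ?_⟩
      rw [eh4, neg_neg]
      exact hp4
    · refine ⟨0, ⟨le_rfl, zero_le_one⟩, ?_⟩
      have h7 : -h4 = 0 := by
        push Not at hc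
        linarith
      rw [h7]
      exact hK.c00
  have hh1 : 0 ≤ h1 := by linarith
  have hh2 : 0 ≤ h2 := by linarith
  have hh3 : 0 ≤ h3 := by linarith
  have hh4 : 0 ≤ h4 := by linarith
  have hOP : OP x1 y2 x3 y4 h1 h2 h3 h4 := ⟨hx1, hy2, hx3, hy4, hh1, hh2, hh3, hh4⟩
  have hsub : oct x1 y2 x3 y4 h1 h2 h3 h4 ⊆ K := by
    refine convexHull_min ?_ hK.bd.conv
    intro z hz
    rcases hz with rfl | rfl | rfl | rfl | rfl | rfl | rfl | rfl
    · exact hK.c00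
    · exact hK.c10
    · exact hK.c11
    · exact hK.c01
    · exact hx1K
    · exact hy2K
    · exact hx3K
    · exact hy4K
  obtain ⟨A, hA⟩ : ∃ A : ℝ, A = 1 + h1 + h3 := ⟨_, rfl⟩
  obtain ⟨B, hB⟩ : ∃ B : ℝ, B = 1 + h2 + h4 := ⟨_, rfl⟩
  have hA0 : 0 < A := by linarith
  have hB0 : 0 < B := by linarith
  have hAB0 : 0 < A * B := mul_pos hA0 hB0
  have hCi : Ci K (-h4, -h1) (1 + h2, -h1) (1 + h2, 1 + h3) (-h4, 1 + h3) := by
    refine ⟨⟨?_, ?_, ?_, ?_⟩, ⟨?_, ?_, ?_, ?_⟩⟩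
    · have : cr (((-h4, -h1) : P) - (-h4, 1 + h3)) (((1 + h2, -h1) : P) - (-h4, -h1)) = A * B := by
        rw [hA, hB]
        simp only [cr, Prod.fst_sub, Prod.snd_sub]
        ring
      rw [this]
      exact hAB0
    · have : cr (((1 + h2, -h1) : P) - (-h4, -h1)) (((1 + h2, 1 + h3) : P) - (1 + h2, -h1)) =
          A * B := by
        rw [hA, hB]
        simp only [cr, Prod.fst_sub, Prod.snd_sub]
        ring
      rw [this]
      exact hAB0
    · have : cr (((1 + h2, 1 + h3) : P) - (1 + h2, -h1)) (((-h4, 1 + h3) : P) - (1 + h2, 1 + h3)) =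
          A * B := by
        rw [hA, hB]
        simp only [cr, Prod.fst_sub, Prod.snd_sub]
        ring
      rw [this]
      exact hAB0
    · have : cr (((-h4, 1 + h3) : P) - (1 + h2, 1 + h3)) (((-h4, -h1) : P) - (-h4, 1 + h3)) =
          A * B := by
        rw [hA, hB]
        simp only [cr, Prod.fst_sub, Prod.snd_sub]
        ring
      rw [this]
      exact hAB0
    · intro k hk
      have : cr (((1 + h2, -h1) : P) - (-h4, -h1)) (k - (-h4, -h1)) = B * (k.2 + h1) := by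
        rw [hB]
        simp only [cr, Prod.fst_sub, Prod.snd_sub]
        ring
      rw [this]
      exact mul_nonneg hB0.le (by linarith [hl1 k hk])
    · intro k hk
      have : cr (((1 + h2, 1 + h3) : P) - (1 + h2, -h1)) (k - (1 + h2, -h1)) =
          A * (1 + h2 - k.1) := by
        rw [hA]
        simp only [cr, Prod.fst_sub, Prod.snd_sub]
        ring
      rw [this]
      exact mul_nonneg hA0.le (by linarith [hl2 k hk])
    · intro k hk
      have : cr (((-h4, 1 + h3) : P) - (1 + h2, 1 + h3)) (k - (1 + h2, 1 + h3)) =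
          B * (1 + h3 - k.2) := by
        rw [hB]
        simp only [cr, Prod.fst_sub, Prod.snd_sub]
        ring
      rw [this]
      exact mul_nonneg hB0.le (by linarith [hl3 k hk])
    · intro k hk
      have : cr (((-h4, -h1) : P) - (-h4, 1 + h3)) (k - (-h4, 1 + h3)) = A * (k.1 + h4) := by
        rw [hA]
        simp only [cr, Prod.fst_sub, Prod.snd_sub]
        ring
      rw [this]
      exact mul_nonneg hA0.le (by linarith [hl4 k hk])
  have hmin := hK.min _ _ _ _ hCi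
  have har : ar (-h4, -h1) (1 + h2, -h1) (1 + h2, 1 + h3) (-h4, 1 + h3) = A * B := by
    rw [hA, hB]
    simp only [ar, cr, Prod.fst_sub, Prod.snd_sub]
    ring
  rw [har] at hmin
  have hare := hARE _ _ _ _ _ _ _ _ hOP
  have hmono : vol (oct x1 y2 x3 y4 h1 h2 h3 h4) ≤ vol K :=
    ENNReal.toReal_mono hK.bd.comp.measure_lt_top.ne (measure_mono hsub)
  have hs2 : √2 * √2 = 2 := Real.mul_self_sqrt (by norm_num)
  have hs0 : 0 < √2 := Real.sqrt_pos.2 (by norm_num)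
  have hle : A + B ≤ 2 * √2 := by
    have := hK.vle
    linarith
  have hsq : (A + B) ^ 2 ≤ 8 := by
    have h5 : (A + B) * (A + B) ≤ (2 * √2) * (2 * √2) :=
      mul_le_mul hle hle (by linarith) (by linarith)
    nlinarith
  have hAB : A = B := by
    have h5 : (A - B) ^ 2 ≤ 0 := by nlinarith
    have h6 : (A - B) ^ 2 = 0 := le_antisymm h5 (sq_nonneg _)
    have h7 : A - B = 0 := by
      rw [pow_eq_zero_iff two_ne_zero] at h6
      exact h6
    linarith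
  have hA1 : A ≤ √2 := by linarith
  have hA2 : √2 ≤ A := by
    refine Real.sqrt_le_iff.2 ⟨hA0.le, ?_⟩
    rw [← hAB] at hmin
    nlinarith
  have hAe : A = √2 := le_antisymm hA1 hA2
  have hBe : B = √2 := by rw [← hAB, hAe]
  refine ⟨x1, y2, x3, y4, h1, h2, h3, h4, hOP, ?_, by linarith, by linarith⟩
  refine hSTR K _ hK.bd ?_ hsub ?_
  · unfold oct
    exact (Set.toFinite _).isClosed_convexHull ℝ
  · have := hK.vle
    linarith

end Pool.Agent.N75.CQ.OCT
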